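import Pool.Agent.H74.OneP.UStmts

/-! Modules U12 and U13 of project ONEP: complexes given by tables. -/

namespace Pool.Agent.H74.OneP

open Equiv Equiv.Perm Drawing

namespace Tab

/-- sides of `c` squares and `r` plain sides -/
abbrev E (c r : ℕ) : Type := (Fin c × Fin 4) ⊕ Fin r

/-- number of a side -/
def enc {c r : ℕ} : E c r → ℕ
  | .inl a => 4 * a.1 + a.2
  | .inr j => 4 * c + j

/-- side with a given number -/
def dec (c r : ℕ) [NeZero c] (k : ℕ) : E c r :=
  if h : 4 * c ≤ k ∧ k - 4 * c < r then Sum.inr ⟨k - 4 * c, h.2⟩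
  else Sum.inl (Fin.ofNat c (k / 4), Fin.ofNat 4 k)

/-- next side -/
def nx {c r : ℕ} (nxf : Perm (Fin r)) : E c r → E c r
  | .inl a => .inl (a.1, a.2 + 1)
  | .inr j => .inr (nxf j)

/-- the checked conditions -/
def Check {c v t r : ℕ} (st : E c r → Fin v) (pol : Fin r → Fin t) (nxf : Perm (Fin r))
    (gl : E c r → E c r) (d : E c r → ℕ) (root : E c r) : Prop :=
  (∀ x, ∃ e, st e = x) ∧ (∀ x, ∃ j, pol j = x) ∧ (∀ j, pol (nxf j) = pol j) ∧
  (∀ e, st (gl e) = st (nx nxf e)) ∧ (∀ e, gl e ≠ e) ∧ (∀ j, ∃ a, gl (.inr j) = .inl a) ∧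
  (∀ e, e = root ∨ d (nx nxf e) < d e ∨ d (gl e) < d e) ∧
  (∀ (a : Fin c) (i j : Fin 4), st (.inl (a, i)) = st (.inl (a, j)) → i = j) ∧
  (∀ e e', st e = st e' → st (nx nxf e) = st (nx nxf e') → e = e') ∧
  (∀ a a' : Fin c × Fin 4, st (.inl a) = st (.inl a') →
    st (.inl (a.1, a.2 + 2)) = st (.inl (a'.1, a'.2 + 2)) → a = a') ∧
  (∀ (a : Fin c × Fin 4) (e : E c r), st (.inl a) = st e →
    st (.inl (a.1, a.2 + 2)) ≠ st (nx nxf e)) ∧
  (∀ j j', pol j = pol j' → j ≠ j' → st (.inr j) ≠ st (.inr j') ∧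
    ((∃ e, st e = st (.inr j) ∧ st (nx nxf e) = st (.inr j')) ∨
     (∃ (a : Fin c) (i : Fin 4), st (.inl (a, i)) = st (.inr j) ∧
      st (.inl (a, i + 2)) = st (.inr j')))) ∧
  (∀ j, nxf j ≠ j ∧ nxf (nxf j) ≠ j)

/-- the complex -/
def mk {c v t r : ℕ} (st : E c r → Fin v) (pol : Fin r → Fin t) (nxf : Perm (Fin r))
    (gl : E c r → E c r) (hgl : ∀ e, gl (gl e) = e) : PM where
  V := Fin v
  C := Fin c
  T := Fin t
  R := Fin r
  finV := inferInstance
  finC := inferInstance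
  finT := inferInstance
  finR := inferInstance
  st := st
  pol := pol
  nxR := nxf
  gl := gl
  gl_gl := hgl

theorem nx_eq {c v t r : ℕ} (st : E c r → Fin v) (pol : Fin r → Fin t) (nxf : Perm (Fin r))
    (gl : E c r → E c r) (hgl : ∀ e, gl (gl e) = e) (e : E c r) :
    (mk st pol nxf gl hgl).nx e = nx nxf e := by
  rcases e with a | j
  · rfl
  · rfl

theorem closed_inv {α : Type} [Finite α] (p : Perm α) (s : Set α) (h : ∀ x ∈ s, p x ∈ s) :
    ∀ x, p x ∈ s → x ∈ s := by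
  intro x hx
  have key : ∀ n : ℕ, ∀ y ∈ s, (p ^ n) y ∈ s := by
    intro n
    induction n with
    | zero => intro y hy; simpa using hy
    | succ n ih => intro y hy; rw [pow_succ', Perm.mul_apply]; exact h _ (ih y hy)
  have h1 := key (orderOf p - 1) _ hx
  have h2 : (p ^ (orderOf p - 1)) (p x) = x := by
    have h3 : 0 < orderOf p := orderOf_pos p
    rw [← Perm.mul_apply, ← pow_succ, Nat.sub_add_cancel h3, pow_orderOf_eq_one]
    rfl
  rwa [h2] at h1

/-- connectivity from a rank function -/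
theorem conn_of_rank {α : Type} [Finite α] (p q : Perm α) (d : α → ℕ) (root : α)
    (h : ∀ e, e = root ∨ d (p e) < d e ∨ d (q e) < d e) (s : Set α) (hs : s.Nonempty)
    (hc : ∀ e ∈ s, p e ∈ s ∧ q e ∈ s) : s = Set.univ := by
  have to_root : ∀ s : Set α, (∀ e ∈ s, p e ∈ s ∧ q e ∈ s) → ∀ n, ∀ e ∈ s, d e ≤ n → root ∈ s := by
    intro s hc n
    induction n with
    | zero =>
      intro e he hn
      rcases h e with h1 | h1 | h1
      · rwa [← h1]
      · omega
      · omega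
    | succ n ih =>
      intro e he hn
      rcases h e with h1 | h1 | h1
      · rwa [← h1]
      · exact ih _ (hc e he).1 (by omega)
      · exact ih _ (hc e he).2 (by omega)
  by_contra hne
  obtain ⟨x, hx⟩ := hs
  have h1 : root ∈ s := to_root s hc _ x hx le_rfl
  obtain ⟨y, hy⟩ := (Set.ne_univ_iff_exists_notMem s).mp hne
  have h2 : root ∈ sᶜ := by
    refine to_root sᶜ ?_ _ y hy le_rfl
    intro e he
    exact ⟨fun h3 => he (closed_inv p s (fun x hx => (hc x hx).1) e h3),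
      fun h3 => he (closed_inv q s (fun x hx => (hc x hx).2) e h3)⟩
  exact h2 h1

theorem nice {c v t r : ℕ} (st : E c r → Fin v) (pol : Fin r → Fin t) (nxf : Perm (Fin r))
    (gl : E c r → E c r) (hgl : ∀ e, gl (gl e) = e) (d : E c r → ℕ) (root : E c r)
    (he : 4 * c + r + 4 ≤ 2 * (v + c + t)) (h : Check st pol nxf gl d root) :
    (mk st pol nxf gl hgl).Nice := by
  obtain ⟨h1, h2, h3, h4, h5, h6, h7, h8, h9, h10, h11, h12, h13⟩ := h
  refine ⟨h1, h2, h3, ?_, h5, h6, ?_, ?_, h8, ?_, h10, ?_, ?_, h13⟩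
  · exact fun e => (h4 e).trans (congrArg st (nx_eq st pol nxf gl hgl e).symm)
  · intro s hs hc
    have : Finite (mk st pol nxf gl hgl).E := inferInstanceAs (Finite (E c r))
    refine conn_of_rank (mk st pol nxf gl hgl).nx (mk st pol nxf gl hgl).glp d root ?_ s hs hc
    intro e
    have h14 := h7 e
    rw [← nx_eq st pol nxf gl hgl e] at h14
    exact h14
  · show 4 * Nat.card (Fin c) + Nat.card (Fin r) + 4 ≤
      2 * (Nat.card (Fin v) + Nat.card (Fin c) + Nat.card (Fin t))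
    simp only [Nat.card_eq_fintype_card, Fintype.card_fin]
    exact he
  · intro e e' g1 g2
    exact h9 e e' g1 ((congrArg st (nx_eq st pol nxf gl hgl e).symm).trans
      (g2.trans (congrArg st (nx_eq st pol nxf gl hgl e'))))
  · intro a e g1 g2
    exact h11 a e g1 (g2.trans (congrArg st (nx_eq st pol nxf gl hgl e)))
  · intro j j' hj hne
    obtain ⟨g1, g2⟩ := h12 j j' hj hne
    refine ⟨g1, ?_⟩
    unfold PM.Adj
    rcases g2 with ⟨e, g3, g4⟩ | g2
    · left
      exact ⟨e, g3, (congrArg st (nx_eq st pol nxf gl hgl e)).trans g4⟩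
    · right; exact g2

end Tab

end Pool.Agent.H74.OneP
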