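import Pool.Agent.H64.OneP.Tab

/-! Module U11 of project ONEP: inserting a quadrangle into a face. -/

namespace Pool.Agent.H74.OneP

open Equiv Equiv.Perm Drawing

namespace Ins

set_option linter.unusedSectionVars false

variable (Q : PM) [IsEmpty Q.T] [IsEmpty Q.R] (c0 : Q.C)

open Classical

/-- start of a square side -/
def s (a : Q.C × Fin 4) : Q.V := Q.st (.inl a)

/-- gluing of square sides -/
noncomputable def g (a : Q.C × Fin 4) : Q.C × Fin 4 :=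
  match Q.gl (.inl a) with
  | .inl b => b
  | .inr r => isEmptyElim r

omit [IsEmpty Q.T] in
theorem gl_inl (a : Q.C × Fin 4) : Q.gl (.inl a) = .inl (g Q a) := by
  unfold g
  rcases h : Q.gl (.inl a) with b | r
  · rfl
  · exact isEmptyElim r

omit [IsEmpty Q.T] in
theorem g_g (a : Q.C × Fin 4) : g Q (g Q a) = a := by
  have h := Q.gl_gl (.inl a)
  rw [gl_inl, gl_inl] at h
  exact Sum.inl_injective h

/-- old sides in the new complex -/
noncomputable def phi (a : Q.C × Fin 4) : (Q.C ⊕ Fin 4) × Fin 4 :=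
  if a.1 = c0 then (.inr a.2, 0) else (.inl a.1, a.2)

omit [IsEmpty Q.T] [IsEmpty Q.R] in
theorem phi_c0 (i : Fin 4) : phi Q c0 (c0, i) = (.inr i, 0) := by
  unfold phi; simp

omit [IsEmpty Q.T] [IsEmpty Q.R] in
theorem phi_ne {c : Q.C} (h : c ≠ c0) (i : Fin 4) : phi Q c0 (c, i) = (.inl c, i) := by
  unfold phi; simp [h]

omit [IsEmpty Q.T] [IsEmpty Q.R] in
theorem phi_inj {a b : Q.C × Fin 4} (h : phi Q c0 a = phi Q c0 b) : a = b := by
  obtain ⟨c, i⟩ := a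
  obtain ⟨d, j⟩ := b
  by_cases h1 : c = c0 <;> by_cases h2 : d = c0
  · subst h1; subst h2
    rw [phi_c0, phi_c0] at h
    simp only [Prod.mk.injEq, Sum.inr.injEq, and_true] at h
    rw [h]
  · subst h1
    rw [phi_c0, phi_ne Q c h2] at h
    simp at h
  · subst h2
    rw [phi_c0, phi_ne Q d h1] at h
    simp at h
  · rw [phi_ne Q c0 h1, phi_ne Q c0 h2] at h
    simp only [Prod.mk.injEq, Sum.inl.injEq] at h
    rw [h.1, h.2]

/-- new start vertices -/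
noncomputable def st' : (Q.C ⊕ Fin 4) × Fin 4 → Q.V ⊕ Fin 4
  | (.inl c, j) => if c = c0 then .inr j else .inl (s Q (c, j))
  | (.inr i, 0) => .inl (s Q (c0, i))
  | (.inr i, 1) => .inl (s Q (c0, i + 1))
  | (.inr i, 2) => .inr (i + 1)
  | (.inr i, 3) => .inr i

/-- new gluing -/
noncomputable def gl' : (Q.C ⊕ Fin 4) × Fin 4 → (Q.C ⊕ Fin 4) × Fin 4
  | (.inl c, j) => if c = c0 then (.inr j, 2) else phi Q c0 (g Q (c, j))
  | (.inr i, 0) => phi Q c0 (g Q (c0, i))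
  | (.inr i, 1) => (.inr (i + 1), 3)
  | (.inr i, 2) => (.inl c0, i)
  | (.inr i, 3) => (.inr (i - 1), 1)

/-- next side -/
def n' (a : (Q.C ⊕ Fin 4) × Fin 4) : (Q.C ⊕ Fin 4) × Fin 4 := (a.1, a.2 + 1)

/-- opposite corner -/
def o' (a : (Q.C ⊕ Fin 4) × Fin 4) : (Q.C ⊕ Fin 4) × Fin 4 := (a.1, a.2 + 2)

omit [IsEmpty Q.T] [IsEmpty Q.R] in
theorem view (x : (Q.C ⊕ Fin 4) × Fin 4) : (∃ a, x = phi Q c0 a) ∨ (∃ i, x = (.inr i, 1)) ∨
    (∃ i, x = (.inr i, 2)) ∨ (∃ i, x = (.inr i, 3)) ∨ (∃ i, x = (.inl c0, i)) := by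
  rcases x with ⟨c | i, j⟩
  · by_cases h : c = c0
    · subst h
      right; right; right; right; exact ⟨j, rfl⟩
    · left; exact ⟨(c, j), (phi_ne Q c0 h j).symm⟩
  · fin_cases j
    · left; exact ⟨(c0, i), (phi_c0 Q c0 i).symm⟩
    · right; left; exact ⟨i, rfl⟩
    · right; right; left; exact ⟨i, rfl⟩
    · right; right; right; left; exact ⟨i, rfl⟩

omit [IsEmpty Q.T] [IsEmpty Q.R] in
theorem st_phi (a : Q.C × Fin 4) : st' Q c0 (phi Q c0 a) = .inl (s Q a) := by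
  obtain ⟨c, i⟩ := a
  by_cases h : c = c0
  · subst h; rw [phi_c0]; rfl
  · rw [phi_ne Q c0 h]; simp [st', h]

omit [IsEmpty Q.T] [IsEmpty Q.R] in
theorem stn_phi (a : Q.C × Fin 4) :
    st' Q c0 (n' Q (phi Q c0 a)) = .inl (s Q (a.1, a.2 + 1)) := by
  obtain ⟨c, i⟩ := a
  by_cases h : c = c0
  · subst h; rw [phi_c0]; rfl
  · rw [phi_ne Q c0 h]; simp [st', n', h]

omit [IsEmpty Q.T] in
theorem gl_phi (a : Q.C × Fin 4) : gl' Q c0 (phi Q c0 a) = phi Q c0 (g Q a) := by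
  obtain ⟨c, i⟩ := a
  by_cases h : c = c0
  · subst h; rw [phi_c0]; rfl
  · rw [phi_ne Q c0 h]; simp [gl', h]

omit [IsEmpty Q.T] [IsEmpty Q.R] in
theorem sto_phi (a : Q.C × Fin 4) :
    (a.1 ≠ c0 ∧ st' Q c0 (o' Q (phi Q c0 a)) = .inl (s Q (a.1, a.2 + 2))) ∨
    (a.1 = c0 ∧ st' Q c0 (o' Q (phi Q c0 a)) = .inr (a.2 + 1)) := by
  obtain ⟨c, i⟩ := a
  by_cases h : c = c0
  · subst h; right; rw [phi_c0]; exact ⟨rfl, rfl⟩
  · left; rw [phi_ne Q c0 h]; exact ⟨h, by simp [st', o', h]⟩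

omit [IsEmpty Q.T] [IsEmpty Q.R] in
theorem st_in (i : Fin 4) : st' Q c0 (.inl c0, i) = .inr i := by simp [st']

omit [IsEmpty Q.T] in
theorem gl_gl' (x : (Q.C ⊕ Fin 4) × Fin 4) : gl' Q c0 (gl' Q c0 x) = x := by
  rcases view Q c0 x with ⟨a, rfl⟩ | ⟨i, rfl⟩ | ⟨i, rfl⟩ | ⟨i, rfl⟩ | ⟨i, rfl⟩
  · rw [gl_phi, gl_phi, g_g]
  · show ((Sum.inr (i + 1 - 1), 1) : (Q.C ⊕ Fin 4) × Fin 4) = _
    rw [add_sub_cancel_right]
  · show gl' Q c0 (.inl c0, i) = _
    simp [gl']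
  · show ((Sum.inr (i - 1 + 1), 3) : (Q.C ⊕ Fin 4) × Fin 4) = _
    rw [sub_add_cancel]
  · have h1 : gl' Q c0 (.inl c0, i) = (.inr i, 2) := by simp [gl']
    rw [h1]; rfl

/-- the new complex -/
noncomputable def new : PM where
  V := Q.V ⊕ Fin 4
  C := Q.C ⊕ Fin 4
  T := Q.T
  R := Q.R
  finV := by have := Q.finV; infer_instance
  finC := by have := Q.finC; infer_instance
  finT := Q.finT
  finR := Q.finR
  st e := match e with
    | .inl a => st' Q c0 a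
    | .inr r => isEmptyElim r
  pol := Q.pol
  nxR := Q.nxR
  gl e := match e with
    | .inl a => .inl (gl' Q c0 a)
    | .inr r => .inr r
  gl_gl e := by
    match e with
    | .inl a => show Sum.inl (gl' Q c0 (gl' Q c0 a)) = _; rw [gl_gl']
    | .inr r => rfl

/-- next side in the old complex -/
def n (a : Q.C × Fin 4) : Q.C × Fin 4 := (a.1, a.2 + 1)

omit [IsEmpty Q.T] [IsEmpty Q.R] in
theorem nx_inl (a : Q.C × Fin 4) : Q.nx (.inl a) = .inl (a.1, a.2 + 1) := rfl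

theorem new_nx_inl (a : (Q.C ⊕ Fin 4) × Fin 4) :
    (new Q c0).nx (.inl a) = .inl (n' Q a) := rfl

theorem new_gl_inl (a : (Q.C ⊕ Fin 4) × Fin 4) :
    (new Q c0).gl (.inl a) = .inl (gl' Q c0 a) := rfl

theorem new_st_inl (a : (Q.C ⊕ Fin 4) × Fin 4) :
    (new Q c0).st (.inl a) = st' Q c0 a := rfl

section

variable (hQ : Q.Nice)
include hQ

omit [IsEmpty Q.T] in
theorem h_gl (a : Q.C × Fin 4) : s Q (g Q a) = s Q (a.1, a.2 + 1) := by
  have h := hQ.st_gl (.inl a)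
  rw [gl_inl] at h
  exact h

omit [IsEmpty Q.T] in
theorem h_gne (a : Q.C × Fin 4) : g Q a ≠ a := by
  intro h
  apply hQ.gl_ne (.inl a)
  rw [gl_inl, h]

omit [IsEmpty Q.T] [IsEmpty Q.R] in
theorem h_corner {c : Q.C} {i j : Fin 4} (h : s Q (c, i) = s Q (c, j)) : i = j :=
  hQ.corner c i j h

omit [IsEmpty Q.T] [IsEmpty Q.R] in
theorem h_side {a b : Q.C × Fin 4} (h1 : s Q a = s Q b)
    (h2 : s Q (a.1, a.2 + 1) = s Q (b.1, b.2 + 1)) : a = b :=
  Sum.inl_injective (hQ.side (.inl a) (.inl b) h1 h2)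

omit [IsEmpty Q.T] [IsEmpty Q.R] in
theorem h_diag {a b : Q.C × Fin 4} (h1 : s Q a = s Q b)
    (h2 : s Q (a.1, a.2 + 2) = s Q (b.1, b.2 + 2)) : a = b :=
  hQ.diag a b h1 h2

omit [IsEmpty Q.T] [IsEmpty Q.R] in
theorem h_mixed {a b : Q.C × Fin 4} (h1 : s Q a = s Q b) :
    s Q (a.1, a.2 + 2) ≠ s Q (b.1, b.2 + 1) :=
  hQ.mixed a (.inl b) h1

theorem new_st_gl (x : (Q.C ⊕ Fin 4) × Fin 4) :
    st' Q c0 (gl' Q c0 x) = st' Q c0 (n' Q x) := by
  rcases view Q c0 x with ⟨a, rfl⟩ | ⟨i, rfl⟩ | ⟨i, rfl⟩ | ⟨i, rfl⟩ | ⟨i, rfl⟩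
  · rw [gl_phi, st_phi, stn_phi, h_gl Q hQ]
  · rfl
  · show st' Q c0 (.inl c0, i) = .inr i
    rw [st_in]
  · show (Sum.inl (s Q (c0, i - 1 + 1)) : Q.V ⊕ Fin 4) = .inl (s Q (c0, i))
    rw [sub_add_cancel]
  · have h1 : gl' Q c0 (.inl c0, i) = (.inr i, 2) := by simp [gl']
    rw [h1]
    show (Sum.inr (i + 1) : Q.V ⊕ Fin 4) = st' Q c0 (.inl c0, i + 1)
    rw [st_in]

theorem new_gl_ne (x : (Q.C ⊕ Fin 4) × Fin 4) : gl' Q c0 x ≠ x := by
  rcases view Q c0 x with ⟨a, rfl⟩ | ⟨i, rfl⟩ | ⟨i, rfl⟩ | ⟨i, rfl⟩ | ⟨i, rfl⟩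
  · rw [gl_phi]
    intro h
    exact h_gne Q hQ a (phi_inj Q c0 h)
  · show ((Sum.inr (i + 1), 3) : (Q.C ⊕ Fin 4) × Fin 4) ≠ (.inr i, 1)
    intro h
    have h1 : (3 : Fin 4) = 1 := congrArg Prod.snd h
    revert h1; decide
  · show ((Sum.inl c0, i) : (Q.C ⊕ Fin 4) × Fin 4) ≠ (.inr i, 2)
    intro h
    have := congrArg Prod.fst h
    simp at this
  · show ((Sum.inr (i - 1), 1) : (Q.C ⊕ Fin 4) × Fin 4) ≠ (.inr i, 3)
    intro h
    have h1 : (1 : Fin 4) = 3 := congrArg Prod.snd h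
    revert h1; decide
  · have h1 : gl' Q c0 (.inl c0, i) = (.inr i, 2) := by simp [gl']
    rw [h1]
    intro h
    have := congrArg Prod.fst h
    simp at this

theorem new_conn (S : Set (new Q c0).E) (hne : S.Nonempty)
    (hc : ∀ e ∈ S, (new Q c0).nx e ∈ S ∧ (new Q c0).gl e ∈ S) : S = Set.univ := by
  have cn : ∀ x, (Sum.inl x : (new Q c0).E) ∈ S → (Sum.inl (n' Q x) : (new Q c0).E) ∈ S :=
    fun x hx => (hc _ hx).1
  have cg : ∀ x, (Sum.inl x : (new Q c0).E) ∈ S → (Sum.inl (gl' Q c0 x) : (new Q c0).E) ∈ S :=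
    fun x hx => (hc _ hx).2
  have c0' : ∀ i, (Sum.inl (phi Q c0 (c0, i)) : (new Q c0).E) ∈ S →
      (Sum.inl ((Sum.inr i, 1)) : (new Q c0).E) ∈ S := by
    intro i h
    rw [phi_c0] at h
    exact cn _ h
  have c1 : ∀ i, (Sum.inl ((Sum.inr i, 1)) : (new Q c0).E) ∈ S →
      (Sum.inl ((Sum.inr i, 2)) : (new Q c0).E) ∈ S := fun i h => cn _ h
  have c2 : ∀ i, (Sum.inl ((Sum.inr i, 2)) : (new Q c0).E) ∈ S →
      (Sum.inl ((Sum.inr i, 3)) : (new Q c0).E) ∈ S := fun i h => cn _ h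
  have c3 : ∀ i, (Sum.inl ((Sum.inr i, 3)) : (new Q c0).E) ∈ S →
      (Sum.inl (phi Q c0 (c0, i)) : (new Q c0).E) ∈ S := by
    intro i h
    rw [phi_c0]
    exact cn _ h
  have c4 : ∀ i, (Sum.inl ((Sum.inr i, 2)) : (new Q c0).E) ∈ S →
      (Sum.inl ((Sum.inl c0, i)) : (new Q c0).E) ∈ S := fun i h => cg _ h
  have c5 : ∀ i, (Sum.inl ((Sum.inl c0, i)) : (new Q c0).E) ∈ S →
      (Sum.inl ((Sum.inr i, 2)) : (new Q c0).E) ∈ S := by
    intro i h
    have h1 := cg _ h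
    have h2 : gl' Q c0 (.inl c0, i) = (.inr i, 2) := by simp [gl']
    exact Eq.mp (congrArg (fun z => (Sum.inl z : (new Q c0).E) ∈ S) h2) h1
  have c6 : ∀ i, (Sum.inl ((Sum.inr i, 1)) : (new Q c0).E) ∈ S →
      (Sum.inl ((Sum.inr (i + 1), 3)) : (new Q c0).E) ∈ S := fun i h => cg _ h
  have old : {e : Q.E | ∃ a, e = .inl a ∧ (Sum.inl (phi Q c0 a) : (new Q c0).E) ∈ S} =
      Set.univ := by
    apply hQ.conn
    · obtain ⟨e, he⟩ := hne
      rcases e with x | r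
      · rcases view Q c0 x with ⟨a, rfl⟩ | ⟨i, rfl⟩ | ⟨i, rfl⟩ | ⟨i, rfl⟩ | ⟨i, rfl⟩
        · exact ⟨.inl a, a, rfl, he⟩
        · exact ⟨.inl (c0, i), _, rfl, c3 _ (c2 _ (c1 _ he))⟩
        · exact ⟨.inl (c0, i), _, rfl, c3 _ (c2 _ he)⟩
        · exact ⟨.inl (c0, i), _, rfl, c3 _ he⟩
        · exact ⟨.inl (c0, i), _, rfl, c3 _ (c2 _ (c5 _ he))⟩
      · exact (IsEmpty.false (α := Q.R) r).elim
    · rintro _ ⟨⟨c, i⟩, rfl, ha⟩
      constructor
      · refine ⟨(c, i + 1), rfl, ?_⟩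
        by_cases h : c = c0
        · subst h
          exact c3 _ (c6 _ (c0' _ ha))
        · have h1 := cn _ ha
          rw [phi_ne Q c0 h] at h1 ⊢
          exact h1
      · refine ⟨g Q (c, i), gl_inl Q _, ?_⟩
        have h1 := cg _ ha
        rw [gl_phi] at h1
        exact h1
  have all : ∀ a, (Sum.inl (phi Q c0 a) : (new Q c0).E) ∈ S := by
    intro a
    have h : (Sum.inl a : Q.E) ∈ {e : Q.E | ∃ a, e = .inl a ∧
        (Sum.inl (phi Q c0 a) : (new Q c0).E) ∈ S} := by rw [old]; trivial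
    obtain ⟨b, hb, h1⟩ := h
    rw [Sum.inl_injective hb]; exact h1
  apply Set.eq_univ_of_forall
  intro e
  rcases e with x | r
  · rcases view Q c0 x with ⟨a, rfl⟩ | ⟨i, rfl⟩ | ⟨i, rfl⟩ | ⟨i, rfl⟩ | ⟨i, rfl⟩
    · exact all a
    · exact c0' _ (all _)
    · exact c1 _ (c0' _ (all _))
    · exact c2 _ (c1 _ (c0' _ (all _)))
    · exact c4 _ (c1 _ (c0' _ (all _)))
  · exact (IsEmpty.false (α := Q.R) r).elim

theorem new_corner (c : Q.C ⊕ Fin 4) (i j : Fin 4)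
    (h : st' Q c0 (c, i) = st' Q c0 (c, j)) : i = j := by
  rcases c with c | k
  · by_cases hc : c = c0
    · subst hc
      rw [st_in, st_in] at h
      exact Sum.inr_injective h
    · have e : ∀ i, st' Q c0 (.inl c, i) = .inl (s Q (c, i)) := by
        intro i; simp [st', hc]
      rw [e, e] at h
      exact h_corner Q hQ (Sum.inl_injective h)
  · have n1 : ∀ k : Fin 4, k = k + 1 → False := by decide
    fin_cases i <;> fin_cases j
    · rfl
    · exact (n1 k (h_corner Q hQ (Sum.inl_injective h))).elim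
    · exact absurd h Sum.inl_ne_inr
    · exact absurd h Sum.inl_ne_inr
    · exact (n1 k (h_corner Q hQ (Sum.inl_injective h.symm))).elim
    · rfl
    · exact absurd h Sum.inl_ne_inr
    · exact absurd h Sum.inl_ne_inr
    · exact absurd h Sum.inr_ne_inl
    · exact absurd h Sum.inr_ne_inl
    · rfl
    · exact (n1 k (Sum.inr_injective h.symm)).elim
    · exact absurd h Sum.inr_ne_inl
    · exact absurd h Sum.inr_ne_inl
    · exact (n1 k (Sum.inr_injective h)).elim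
    · rfl

theorem new_side (x y : (Q.C ⊕ Fin 4) × Fin 4) (h1 : st' Q c0 x = st' Q c0 y)
    (h2 : st' Q c0 (n' Q x) = st' Q c0 (n' Q y)) : x = y := by
  have nin : ∀ i, st' Q c0 (n' Q (.inl c0, i)) = .inr (i + 1) := fun i => st_in Q c0 (i + 1)
  have n1 : ∀ i : Fin 4, i + 1 + 1 = i → False := by decide
  rcases view Q c0 x with ⟨a, rfl⟩ | ⟨i, rfl⟩ | ⟨i, rfl⟩ | ⟨i, rfl⟩ | ⟨i, rfl⟩ <;>
  rcases view Q c0 y with ⟨b, rfl⟩ | ⟨j, rfl⟩ | ⟨j, rfl⟩ | ⟨j, rfl⟩ | ⟨j, rfl⟩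
  · rw [st_phi, st_phi] at h1
    rw [stn_phi, stn_phi] at h2
    rw [h_side Q hQ (Sum.inl_injective h1) (Sum.inl_injective h2)]
  · rw [stn_phi] at h2; exact absurd h2 Sum.inl_ne_inr
  · rw [st_phi] at h1; exact absurd h1 Sum.inl_ne_inr
  · rw [st_phi] at h1; exact absurd h1 Sum.inl_ne_inr
  · rw [st_phi, st_in] at h1; exact absurd h1 Sum.inl_ne_inr
  · rw [stn_phi] at h2; exact absurd h2 Sum.inr_ne_inl
  · have h3 : i + 1 = j + 1 := Sum.inr_injective h2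
    rw [add_right_cancel h3]
  · exact absurd h1 Sum.inl_ne_inr
  · exact absurd h1 Sum.inl_ne_inr
  · rw [st_in] at h1; exact absurd h1 Sum.inl_ne_inr
  · rw [st_phi] at h1; exact absurd h1 Sum.inr_ne_inl
  · exact absurd h1 Sum.inr_ne_inl
  · have h3 : i + 1 = j + 1 := Sum.inr_injective h1
    rw [add_right_cancel h3]
  · exact absurd h2 Sum.inr_ne_inl
  · rw [nin] at h2
    rw [st_in] at h1
    have h3 : i + 1 = j := Sum.inr_injective h1
    have h4 : i = j + 1 := Sum.inr_injective h2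
    rw [← h3] at h4
    exact (n1 i h4.symm).elim
  · rw [st_phi] at h1; exact absurd h1 Sum.inr_ne_inl
  · exact absurd h1 Sum.inr_ne_inl
  · exact absurd h2 Sum.inl_ne_inr
  · have h3 : i = j := Sum.inr_injective h1
    rw [h3]
  · rw [nin] at h2; exact absurd h2 Sum.inl_ne_inr
  · rw [st_phi, st_in] at h1; exact absurd h1 Sum.inr_ne_inl
  · rw [st_in] at h1; exact absurd h1 Sum.inr_ne_inl
  · rw [nin] at h2
    rw [st_in] at h1
    have h3 : i = j + 1 := Sum.inr_injective h1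
    have h4 : i + 1 = j := Sum.inr_injective h2
    rw [← h4] at h3
    exact (n1 i h3.symm).elim
  · rw [nin] at h2; exact absurd h2 Sum.inr_ne_inl
  · rw [st_in, st_in] at h1
    rw [Sum.inr_injective h1]

theorem new_diag (x y : (Q.C ⊕ Fin 4) × Fin 4) (h1 : st' Q c0 x = st' Q c0 y)
    (h2 : st' Q c0 (o' Q x) = st' Q c0 (o' Q y)) : x = y := by
  have oin : ∀ i, st' Q c0 (o' Q (.inl c0, i)) = .inr (i + 2) := fun i => st_in Q c0 (i + 2)
  have n1 : ∀ i : Fin 4, i = i + 1 + 1 → False := by decide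
  rcases view Q c0 x with ⟨a, rfl⟩ | ⟨i, rfl⟩ | ⟨i, rfl⟩ | ⟨i, rfl⟩ | ⟨i, rfl⟩ <;>
  rcases view Q c0 y with ⟨b, rfl⟩ | ⟨j, rfl⟩ | ⟨j, rfl⟩ | ⟨j, rfl⟩ | ⟨j, rfl⟩
  · rw [st_phi, st_phi] at h1
    rcases sto_phi Q c0 a with ⟨a1, a2⟩ | ⟨a1, a2⟩ <;>
    rcases sto_phi Q c0 b with ⟨b1, b2⟩ | ⟨b1, b2⟩ <;> rw [a2, b2] at h2
    · rw [h_diag Q hQ (Sum.inl_injective h1) (Sum.inl_injective h2)]
    · exact absurd h2 Sum.inl_ne_inr
    · exact absurd h2 Sum.inr_ne_inl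
    · have h3 := add_right_cancel (Sum.inr_injective h2)
      rw [Prod.ext (a1.trans b1.symm) h3]
  · rw [st_phi] at h1
    rcases sto_phi Q c0 a with ⟨a1, a2⟩ | ⟨a1, a2⟩ <;> rw [a2] at h2
    · exact absurd h2 Sum.inl_ne_inr
    · have h3 : a.2 + 1 = j := Sum.inr_injective h2
      have h4 : s Q a = s Q (c0, j + 1) := Sum.inl_injective h1
      obtain ⟨c, i⟩ := a
      simp only at a1 h3 h4
      subst a1
      have h5 := h_corner Q hQ h4
      rw [← h3] at h5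
      exact (n1 i h5).elim
  · rw [st_phi] at h1; exact absurd h1 Sum.inl_ne_inr
  · rw [st_phi] at h1; exact absurd h1 Sum.inl_ne_inr
  · rw [st_phi, st_in] at h1; exact absurd h1 Sum.inl_ne_inr
  · rw [st_phi] at h1
    rcases sto_phi Q c0 b with ⟨a1, a2⟩ | ⟨a1, a2⟩ <;> rw [a2] at h2
    · exact absurd h2 Sum.inr_ne_inl
    · have h3 : i = b.2 + 1 := Sum.inr_injective h2
      have h4 : s Q (c0, i + 1) = s Q b := Sum.inl_injective h1
      obtain ⟨c, j⟩ := b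
      simp only at a1 h3 h4
      subst a1
      have h5 := h_corner Q hQ h4
      rw [h3] at h5
      exact (n1 j h5.symm).elim
  · have h3 : i = j := Sum.inr_injective h2
    rw [h3]
  · exact absurd h1 Sum.inl_ne_inr
  · exact absurd h1 Sum.inl_ne_inr
  · rw [st_in] at h1; exact absurd h1 Sum.inl_ne_inr
  · rw [st_phi] at h1; exact absurd h1 Sum.inr_ne_inl
  · exact absurd h1 Sum.inr_ne_inl
  · have h3 : i + 1 = j + 1 := Sum.inr_injective h1
    rw [add_right_cancel h3]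
  · have h3 : i + 1 = j := Sum.inr_injective h1
    have h4 : s Q (c0, i) = s Q (c0, j + 1) := Sum.inl_injective h2
    have h5 := h_corner Q hQ h4
    rw [← h3] at h5
    exact (n1 i h5).elim
  · rw [oin] at h2; exact absurd h2 Sum.inl_ne_inr
  · rw [st_phi] at h1; exact absurd h1 Sum.inr_ne_inl
  · exact absurd h1 Sum.inr_ne_inl
  · have h3 : i = j + 1 := Sum.inr_injective h1
    have h4 : s Q (c0, i + 1) = s Q (c0, j) := Sum.inl_injective h2
    have h5 := h_corner Q hQ h4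
    rw [h3] at h5
    exact (n1 j h5.symm).elim
  · have h3 : i = j := Sum.inr_injective h1
    rw [h3]
  · rw [oin] at h2; exact absurd h2 Sum.inl_ne_inr
  · rw [st_phi, st_in] at h1; exact absurd h1 Sum.inr_ne_inl
  · rw [st_in] at h1; exact absurd h1 Sum.inr_ne_inl
  · rw [oin] at h2; exact absurd h2 Sum.inr_ne_inl
  · rw [oin] at h2; exact absurd h2 Sum.inr_ne_inl
  · rw [st_in, st_in] at h1
    rw [Sum.inr_injective h1]

theorem new_mixed (x y : (Q.C ⊕ Fin 4) × Fin 4) (h1 : st' Q c0 x = st' Q c0 y)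
    (h2 : st' Q c0 (o' Q x) = st' Q c0 (n' Q y)) : False := by
  have oin : ∀ i, st' Q c0 (o' Q (.inl c0, i)) = .inr (i + 2) := fun i => st_in Q c0 (i + 2)
  have nin : ∀ i, st' Q c0 (n' Q (.inl c0, i)) = .inr (i + 1) := fun i => st_in Q c0 (i + 1)
  have n1 : ∀ i : Fin 4, i = i + 1 → False := by decide
  have n2 : ∀ i : Fin 4, i + 2 = i + 1 → False := by decide
  have n3 : ∀ i : Fin 4, i + 1 + 2 = i → False := by decide
  rcases view Q c0 x with ⟨a, rfl⟩ | ⟨i, rfl⟩ | ⟨i, rfl⟩ | ⟨i, rfl⟩ | ⟨i, rfl⟩ <;>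
  rcases view Q c0 y with ⟨b, rfl⟩ | ⟨j, rfl⟩ | ⟨j, rfl⟩ | ⟨j, rfl⟩ | ⟨j, rfl⟩
  · rw [st_phi, st_phi] at h1
    rw [stn_phi] at h2
    rcases sto_phi Q c0 a with ⟨a1, a2⟩ | ⟨a1, a2⟩ <;> rw [a2] at h2
    · exact h_mixed Q hQ (Sum.inl_injective h1) (Sum.inl_injective h2)
    · exact absurd h2 Sum.inr_ne_inl
  · rw [st_phi] at h1
    rcases sto_phi Q c0 a with ⟨a1, a2⟩ | ⟨a1, a2⟩ <;> rw [a2] at h2
    · exact absurd h2 Sum.inl_ne_inr
    · have h3 : a.2 + 1 = j + 1 := Sum.inr_injective h2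
      have h4 : s Q a = s Q (c0, j + 1) := Sum.inl_injective h1
      obtain ⟨c, i⟩ := a
      simp only at a1 h3 h4
      subst a1
      have h5 := h_corner Q hQ h4
      rw [← h3] at h5
      exact n1 i h5
  · rw [st_phi] at h1; exact absurd h1 Sum.inl_ne_inr
  · rw [st_phi] at h1; exact absurd h1 Sum.inl_ne_inr
  · rw [st_phi, st_in] at h1; exact absurd h1 Sum.inl_ne_inr
  · rw [stn_phi] at h2; exact absurd h2 Sum.inr_ne_inl
  · have h3 : i = j + 1 := Sum.inr_injective h2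
    have h4 : s Q (c0, i + 1) = s Q (c0, j + 1) := Sum.inl_injective h1
    have h5 := add_right_cancel (h_corner Q hQ h4)
    rw [h5] at h3
    exact n1 j h3
  · exact absurd h1 Sum.inl_ne_inr
  · exact absurd h1 Sum.inl_ne_inr
  · rw [st_in] at h1; exact absurd h1 Sum.inl_ne_inr
  · rw [st_phi] at h1; exact absurd h1 Sum.inr_ne_inl
  · exact absurd h1 Sum.inr_ne_inl
  · exact absurd h2 Sum.inl_ne_inr
  · have h3 : i + 1 = j := Sum.inr_injective h1
    have h4 : s Q (c0, i) = s Q (c0, j) := Sum.inl_injective h2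
    have h5 := h_corner Q hQ h4
    rw [← h3] at h5
    exact n1 i h5
  · rw [nin] at h2; exact absurd h2 Sum.inl_ne_inr
  · rw [st_phi] at h1; exact absurd h1 Sum.inr_ne_inl
  · exact absurd h1 Sum.inr_ne_inl
  · exact absurd h2 Sum.inl_ne_inr
  · have h3 : i = j := Sum.inr_injective h1
    have h4 : s Q (c0, i + 1) = s Q (c0, j) := Sum.inl_injective h2
    have h5 := h_corner Q hQ h4
    rw [h3] at h5
    exact n1 j h5.symm
  · rw [nin] at h2; exact absurd h2 Sum.inl_ne_inr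
  · rw [st_phi, st_in] at h1; exact absurd h1 Sum.inr_ne_inl
  · rw [st_in] at h1; exact absurd h1 Sum.inr_ne_inl
  · rw [oin] at h2
    rw [st_in] at h1
    have h3 : i = j + 1 := Sum.inr_injective h1
    have h4 : i + 2 = j := Sum.inr_injective h2
    rw [h3] at h4
    exact n3 j h4
  · rw [oin] at h2; exact absurd h2 Sum.inr_ne_inl
  · rw [st_in, st_in] at h1
    rw [oin, nin] at h2
    have h3 : i = j := Sum.inr_injective h1
    have h4 : i + 2 = j + 1 := Sum.inr_injective h2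
    rw [h3] at h4
    exact n2 j h4

theorem new_nice : (new Q c0).Nice := by
  have := Q.finV
  have := Q.finC
  refine ⟨?_, ?_, ?_, ?_, ?_, ?_, ?_, ?_, ?_, ?_, ?_, ?_, ?_, ?_⟩
  · rintro (v | i)
    · obtain ⟨e, he⟩ := hQ.st_surj v
      rcases e with a | r
      · exact ⟨.inl (phi Q c0 a), (st_phi Q c0 a).trans (congrArg Sum.inl he)⟩
      · exact (IsEmpty.false (α := Q.R) r).elim
    · exact ⟨.inl (.inl c0, i), st_in Q c0 i⟩
  · intro t; exact (IsEmpty.false (α := Q.T) t).elim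
  · intro r; exact (IsEmpty.false (α := Q.R) r).elim
  · rintro (x | r)
    · exact new_st_gl Q c0 hQ x
    · exact (IsEmpty.false (α := Q.R) r).elim
  · rintro (x | r)
    · intro h
      exact new_gl_ne Q c0 hQ x (Sum.inl_injective h)
    · exact (IsEmpty.false (α := Q.R) r).elim
  · intro r; exact (IsEmpty.false (α := Q.R) r).elim
  · intro S hne hc
    exact new_conn Q c0 hQ S hne hc
  · show 4 * Nat.card (Q.C ⊕ Fin 4) + Nat.card Q.R + 4 ≤
      2 * (Nat.card (Q.V ⊕ Fin 4) + Nat.card (Q.C ⊕ Fin 4) + Nat.card Q.T)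
    have h := hQ.euler
    rw [Nat.card_sum, Nat.card_sum]
    simp only [Nat.card_eq_fintype_card (α := Fin 4), Fintype.card_fin]
    omega
  · intro c i j h
    exact new_corner Q c0 hQ c i j h
  · rintro (x | r) (y | r')
    · intro h1 h2
      rw [new_side Q c0 hQ x y h1 h2]
    · exact (IsEmpty.false (α := Q.R) r').elim
    · exact (IsEmpty.false (α := Q.R) r).elim
    · exact (IsEmpty.false (α := Q.R) r).elim
  · intro x y h1 h2
    exact new_diag Q c0 hQ x y h1 h2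
  · rintro x (y | r)
    · intro h1 h2
      exact new_mixed Q c0 hQ x y h1 h2
    · exact (IsEmpty.false (α := Q.R) r).elim
  · intro r; exact (IsEmpty.false (α := Q.R) r).elim
  · intro r; exact (IsEmpty.false (α := Q.R) r).elim

end

end Ins

/-- U11 -/
theorem u11 : InsertStmt := by
  rintro c hc ⟨Q, hQ, h1, h2, h3, h4⟩
  have := Q.finV
  have := Q.finC
  obtain ⟨c0⟩ : Nonempty Q.C := by
    apply (Nat.card_pos_iff.mp (by rw [h1]; exact hc)).1
  refine ⟨Ins.new Q c0, Ins.new_nice Q c0 hQ, ?_, ?_, h3, h4⟩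
  · show Nat.card (Q.C ⊕ Fin 4) = c + 4
    rw [Nat.card_sum, h1]; simp
  · show Nat.card (Q.V ⊕ Fin 4) = c + 4 + 2
    rw [Nat.card_sum, h2]; simp

end Pool.Agent.H74.OneP
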