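import Pool.Agent.H64.OneP.Tab

/-! Module U12 of project ONEP: explicit quadrangulations. -/

namespace Pool.Agent.H74.OneP

open Equiv Equiv.Perm Drawing

namespace Tab

/-- start vertices -/
def stQ6 (e : E 6 0) : Fin 8 := Fin.ofNat 8 ([0, 3, 2, 1, 4, 5, 6, 7, 0, 1, 5, 4, 1, 2, 6, 5, 2, 3, 7, 6, 3, 0, 4, 7].getD (enc e) 0)

/-- gluing -/
def glQ6 (e : E 6 0) : E 6 0 := dec 6 0 ([20, 16, 12, 8, 10, 14, 18, 22, 3, 15, 4, 21, 2, 19, 5, 9, 1, 23, 6, 13, 0, 11, 7, 17].getD (enc e) 0)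

/-- rank -/
def dQ6 (e : E 6 0) : ℕ := [0, 3, 2, 1, 5, 6, 5, 4, 2, 5, 4, 3, 3, 6, 5, 4, 4, 3, 6, 5, 1, 4, 3, 2].getD (enc e) 0

/-- no plain polygons -/
def polQ6 (j : Fin 0) : Fin 0 := j

/-- no plain sides -/
def nxQ6 : Perm (Fin 0) := 1

theorem glglQ6 : ∀ e, glQ6 (glQ6 e) = e := by decide +kernel

theorem chkQ6 : Check stQ6 polQ6 nxQ6 glQ6 dQ6 (.inl (0, 0)) :=
  ⟨by decide +kernel, by decide +kernel, by decide +kernel, by decide +kernel,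
   by decide +kernel, by decide +kernel, by decide +kernel, by decide +kernel,
   by decide +kernel, by decide +kernel, by decide +kernel, by decide +kernel,
   by decide +kernel⟩

theorem niceQ6 : (mk stQ6 polQ6 nxQ6 glQ6 glglQ6).Nice :=
  nice _ _ _ _ _ dQ6 (.inl (0, 0)) (by norm_num) chkQ6

theorem quad6 : HasQuad 6 :=
  ⟨_, niceQ6, by show Nat.card (Fin 6) = 6; simp, by show Nat.card (Fin 8) = 6 + 2; simp,
    inferInstanceAs (IsEmpty (Fin 0)), inferInstanceAs (IsEmpty (Fin 0))⟩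

/-- start vertices -/
def stQ8 (e : E 8 0) : Fin 10 := Fin.ofNat 10 ([8, 1, 2, 3, 9, 2, 1, 0, 8, 3, 4, 5, 9, 4, 3, 2, 8, 5, 6, 7, 9, 6, 5, 4, 8, 7, 0, 1, 9, 0, 7, 6].getD (enc e) 0)

/-- gluing -/
def glQ8 (e : E 8 0) : E 8 0 := dec 8 0 ([27, 5, 14, 8, 15, 1, 26, 28, 3, 13, 22, 16, 23, 9, 2, 4, 11, 21, 30, 24, 31, 17, 10, 12, 19, 29, 6, 0, 7, 25, 18, 20].getD (enc e) 0)

/-- rank -/
def dQ8 (e : E 8 0) : ℕ := [0, 3, 2, 1, 5, 4, 3, 6, 2, 5, 4, 3, 5, 4, 3, 6, 4, 7, 6, 5, 7, 6, 5, 6, 4, 3, 2, 1, 5, 4, 7, 6].getD (enc e) 0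

/-- no plain polygons -/
def polQ8 (j : Fin 0) : Fin 0 := j

/-- no plain sides -/
def nxQ8 : Perm (Fin 0) := 1

theorem glglQ8 : ∀ e, glQ8 (glQ8 e) = e := by decide +kernel

theorem chkQ8 : Check stQ8 polQ8 nxQ8 glQ8 dQ8 (.inl (0, 0)) :=
  ⟨by decide +kernel, by decide +kernel, by decide +kernel, by decide +kernel,
   by decide +kernel, by decide +kernel, by decide +kernel, by decide +kernel,
   by decide +kernel, by decide +kernel, by decide +kernel, by decide +kernel,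
   by decide +kernel⟩

theorem niceQ8 : (mk stQ8 polQ8 nxQ8 glQ8 glglQ8).Nice :=
  nice _ _ _ _ _ dQ8 (.inl (0, 0)) (by norm_num) chkQ8

theorem quad8 : HasQuad 8 :=
  ⟨_, niceQ8, by show Nat.card (Fin 8) = 8; simp, by show Nat.card (Fin 10) = 8 + 2; simp,
    inferInstanceAs (IsEmpty (Fin 0)), inferInstanceAs (IsEmpty (Fin 0))⟩

/-- start vertices -/
def stQ9 (e : E 9 0) : Fin 11 := Fin.ofNat 11 ([8, 1, 2, 3, 9, 2, 1, 0, 8, 3, 4, 5, 9, 4, 3, 2, 10, 5, 6, 7, 9, 6, 5, 4, 10, 7, 0, 1, 9, 0, 7, 6, 1, 8, 5, 10].getD (enc e) 0)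

/-- gluing -/
def glQ9 (e : E 9 0) : E 9 0 := dec 9 0 ([32, 5, 14, 8, 15, 1, 26, 28, 3, 13, 22, 33, 23, 9, 2, 4, 34, 21, 30, 24, 31, 17, 10, 12, 19, 29, 6, 35, 7, 25, 18, 20, 0, 11, 16, 27].getD (enc e) 0)

/-- rank -/
def dQ9 (e : E 9 0) : ℕ := [0, 3, 2, 1, 5, 4, 5, 6, 2, 5, 4, 3, 5, 4, 3, 6, 4, 7, 6, 5, 7, 6, 5, 6, 6, 5, 4, 3, 7, 6, 7, 8, 1, 4, 3, 2].getD (enc e) 0

/-- no plain polygons -/
def polQ9 (j : Fin 0) : Fin 0 := j

/-- no plain sides -/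
def nxQ9 : Perm (Fin 0) := 1

theorem glglQ9 : ∀ e, glQ9 (glQ9 e) = e := by decide +kernel

theorem chkQ9 : Check stQ9 polQ9 nxQ9 glQ9 dQ9 (.inl (0, 0)) :=
  ⟨by decide +kernel, by decide +kernel, by decide +kernel, by decide +kernel,
   by decide +kernel, by decide +kernel, by decide +kernel, by decide +kernel,
   by decide +kernel, by decide +kernel, by decide +kernel, by decide +kernel,
   by decide +kernel⟩

theorem niceQ9 : (mk stQ9 polQ9 nxQ9 glQ9 glglQ9).Nice :=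
  nice _ _ _ _ _ dQ9 (.inl (0, 0)) (by norm_num) chkQ9

theorem quad9 : HasQuad 9 :=
  ⟨_, niceQ9, by show Nat.card (Fin 9) = 9; simp, by show Nat.card (Fin 11) = 9 + 2; simp,
    inferInstanceAs (IsEmpty (Fin 0)), inferInstanceAs (IsEmpty (Fin 0))⟩

/-- start vertices -/
def stQ11 (e : E 11 0) : Fin 13 := Fin.ofNat 13 ([10, 1, 2, 3, 11, 2, 1, 0, 10, 3, 4, 5, 11, 4, 3, 2, 12, 5, 6, 7, 11, 6, 5, 4, 12, 7, 8, 9, 11, 8, 7, 6, 12, 9, 0, 1, 11, 0, 9, 8, 1, 10, 5, 12].getD (enc e) 0)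

/-- gluing -/
def glQ11 (e : E 11 0) : E 11 0 := dec 11 0 ([40, 5, 14, 8, 15, 1, 34, 36, 3, 13, 22, 41, 23, 9, 2, 4, 42, 21, 30, 24, 31, 17, 10, 12, 19, 29, 38, 32, 39, 25, 18, 20, 27, 37, 6, 43, 7, 33, 26, 28, 0, 11, 16, 35].getD (enc e) 0)

/-- rank -/
def dQ11 (e : E 11 0) : ℕ := [0, 3, 2, 1, 5, 4, 5, 6, 2, 5, 4, 3, 5, 4, 3, 6, 4, 7, 6, 5, 7, 6, 5, 6, 6, 9, 8, 7, 9, 8, 7, 8, 6, 5, 4, 3, 7, 6, 9, 8, 1, 4, 3, 2].getD (enc e) 0

/-- no plain polygons -/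
def polQ11 (j : Fin 0) : Fin 0 := j

/-- no plain sides -/
def nxQ11 : Perm (Fin 0) := 1

theorem glglQ11 : ∀ e, glQ11 (glQ11 e) = e := by decide +kernel

theorem chkQ11 : Check stQ11 polQ11 nxQ11 glQ11 dQ11 (.inl (0, 0)) :=
  ⟨by decide +kernel, by decide +kernel, by decide +kernel, by decide +kernel,
   by decide +kernel, by decide +kernel, by decide +kernel, by decide +kernel,
   by decide +kernel, by decide +kernel, by decide +kernel, by decide +kernel,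
   by decide +kernel⟩

theorem niceQ11 : (mk stQ11 polQ11 nxQ11 glQ11 glglQ11).Nice :=
  nice _ _ _ _ _ dQ11 (.inl (0, 0)) (by norm_num) chkQ11

theorem quad11 : HasQuad 11 :=
  ⟨_, niceQ11, by show Nat.card (Fin 11) = 11; simp, by show Nat.card (Fin 13) = 11 + 2; simp,
    inferInstanceAs (IsEmpty (Fin 0)), inferInstanceAs (IsEmpty (Fin 0))⟩

end Tab

/-- U12 -/
theorem u12 : BaseQuadStmt := ⟨Tab.quad6, Tab.quad8, Tab.quad9, Tab.quad11⟩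

end Pool.Agent.H74.OneP
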