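import Pool.Agent.H64.OneP.Tab

/-! Module U13 of project ONEP: small complexes. -/

namespace Pool.Agent.H74.OneP

open Equiv Equiv.Perm Drawing

namespace Tab

/-- start vertices -/
def stP3 (e : E 3 6) : Fin 6 := Fin.ofNat 6 ([0, 1, 2, 3, 1, 0, 4, 5, 4, 3, 2, 5, 4, 0, 3, 5, 2, 1].getD (enc e) 0)

/-- gluing -/
def glP3 (e : E 3 6) : E 3 6 := dec 3 6 ([4, 16, 9, 13, 0, 12, 11, 17, 14, 2, 15, 6, 5, 3, 8, 10, 1, 7].getD (enc e) 0)

/-- rank -/
def dP3 (e : E 3 6) : ℕ := [0, 3, 2, 1, 1, 4, 3, 2, 4, 3, 5, 4, 3, 2, 4, 5, 4, 3].getD (enc e) 0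

/-- plain polygons -/
def polP3 (j : Fin 6) : Fin 2 := Fin.ofNat 2 ([0, 0, 0, 1, 1, 1].getD j 0)

/-- next plain side -/
def nxP3 : Perm (Fin 6) where
  toFun j := Fin.ofNat 6 ([1, 2, 0, 4, 5, 3].getD j 0)
  invFun j := Fin.ofNat 6 ([2, 0, 1, 5, 3, 4].getD j 0)
  left_inv := by decide +kernel
  right_inv := by decide +kernel

theorem glglP3 : ∀ e, glP3 (glP3 e) = e := by decide +kernel

theorem chkP3 : Check stP3 polP3 nxP3 glP3 dP3 (.inl (0, 0)) :=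
  ⟨by decide +kernel, by decide +kernel, by decide +kernel, by decide +kernel,
   by decide +kernel, by decide +kernel, by decide +kernel, by decide +kernel,
   by decide +kernel, by decide +kernel, by decide +kernel, by decide +kernel,
   by decide +kernel⟩

theorem niceP3 : (mk stP3 polP3 nxP3 glP3 glglP3).Nice :=
  nice _ _ _ _ _ dP3 (.inl (0, 0)) (by norm_num) chkP3

theorem pm3 : HasPM 3 6 3 2 := by
  refine ⟨_, niceP3, by show Nat.card (Fin 3) = 3; simp, by show Nat.card (Fin 6) = 6; simp,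
    by show Nat.card (Fin 2) = 2; simp, ?_⟩
  show Nat.card {a : Fin 3 × Fin 4 // ∃ b : Fin 3 × Fin 4, glP3 (Sum.inl a) = Sum.inl b} = _
  rw [Nat.card_eq_fintype_card]
  decide +kernel

/-- start vertices -/
def stP4 (e : E 4 6) : Fin 7 := Fin.ofNat 7 ([0, 1, 2, 3, 4, 0, 3, 5, 5, 3, 2, 6, 6, 2, 1, 4, 1, 0, 4, 6, 4, 5].getD (enc e) 0)

/-- gluing -/
def glP4 (e : E 4 6) : E 4 6 := dec 4 6 ([16, 13, 9, 5, 17, 3, 8, 20, 6, 2, 12, 21, 10, 1, 18, 19, 0, 4, 14, 15, 7, 11].getD (enc e) 0)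

/-- rank -/
def dP4 (e : E 4 6) : ℕ := [0, 3, 2, 1, 3, 2, 5, 4, 4, 3, 6, 5, 5, 4, 3, 6, 1, 3, 2, 6, 5, 6].getD (enc e) 0

/-- plain polygons -/
def polP4 (j : Fin 6) : Fin 2 := Fin.ofNat 2 ([0, 0, 0, 1, 1, 1].getD j 0)

/-- next plain side -/
def nxP4 : Perm (Fin 6) where
  toFun j := Fin.ofNat 6 ([1, 2, 0, 4, 5, 3].getD j 0)
  invFun j := Fin.ofNat 6 ([2, 0, 1, 5, 3, 4].getD j 0)
  left_inv := by decide +kernel
  right_inv := by decide +kernel

theorem glglP4 : ∀ e, glP4 (glP4 e) = e := by decide +kernel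

theorem chkP4 : Check stP4 polP4 nxP4 glP4 dP4 (.inl (0, 0)) :=
  ⟨by decide +kernel, by decide +kernel, by decide +kernel, by decide +kernel,
   by decide +kernel, by decide +kernel, by decide +kernel, by decide +kernel,
   by decide +kernel, by decide +kernel, by decide +kernel, by decide +kernel,
   by decide +kernel⟩

theorem niceP4 : (mk stP4 polP4 nxP4 glP4 glglP4).Nice :=
  nice _ _ _ _ _ dP4 (.inl (0, 0)) (by norm_num) chkP4

theorem pm4 : HasPM 4 7 5 2 := by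
  refine ⟨_, niceP4, by show Nat.card (Fin 4) = 4; simp, by show Nat.card (Fin 7) = 7; simp,
    by show Nat.card (Fin 2) = 2; simp, ?_⟩
  show Nat.card {a : Fin 4 × Fin 4 // ∃ b : Fin 4 × Fin 4, glP4 (Sum.inl a) = Sum.inl b} = _
  rw [Nat.card_eq_fintype_card]
  decide +kernel

/-- start vertices -/
def stP5 (e : E 5 6) : Fin 8 := Fin.ofNat 8 ([0, 1, 2, 3, 4, 0, 3, 5, 6, 3, 2, 7, 7, 2, 1, 4, 7, 4, 5, 6, 1, 0, 4, 5, 3, 6].getD (enc e) 0)

/-- gluing -/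
def glP5 (e : E 5 6) : E 5 6 := dec 5 6 ([20, 13, 9, 5, 21, 3, 23, 17, 24, 2, 12, 19, 10, 1, 22, 16, 15, 7, 25, 11, 0, 4, 14, 6, 8, 18].getD (enc e) 0)

/-- rank -/
def dP5 (e : E 5 6) : ℕ := [0, 3, 2, 1, 3, 2, 5, 4, 4, 3, 6, 5, 5, 4, 3, 6, 6, 5, 7, 6, 1, 3, 2, 6, 5, 7].getD (enc e) 0

/-- plain polygons -/
def polP5 (j : Fin 6) : Fin 2 := Fin.ofNat 2 ([0, 0, 0, 1, 1, 1].getD j 0)

/-- next plain side -/
def nxP5 : Perm (Fin 6) where
  toFun j := Fin.ofNat 6 ([1, 2, 0, 4, 5, 3].getD j 0)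
  invFun j := Fin.ofNat 6 ([2, 0, 1, 5, 3, 4].getD j 0)
  left_inv := by decide +kernel
  right_inv := by decide +kernel

theorem glglP5 : ∀ e, glP5 (glP5 e) = e := by decide +kernel

theorem chkP5 : Check stP5 polP5 nxP5 glP5 dP5 (.inl (0, 0)) :=
  ⟨by decide +kernel, by decide +kernel, by decide +kernel, by decide +kernel,
   by decide +kernel, by decide +kernel, by decide +kernel, by decide +kernel,
   by decide +kernel, by decide +kernel, by decide +kernel, by decide +kernel,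
   by decide +kernel⟩

theorem niceP5 : (mk stP5 polP5 nxP5 glP5 glglP5).Nice :=
  nice _ _ _ _ _ dP5 (.inl (0, 0)) (by norm_num) chkP5

theorem pm5 : HasPM 5 8 7 2 := by
  refine ⟨_, niceP5, by show Nat.card (Fin 5) = 5; simp, by show Nat.card (Fin 8) = 8; simp,
    by show Nat.card (Fin 2) = 2; simp, ?_⟩
  show Nat.card {a : Fin 5 × Fin 4 // ∃ b : Fin 5 × Fin 4, glP5 (Sum.inl a) = Sum.inl b} = _
  rw [Nat.card_eq_fintype_card]
  decide +kernel

end Tab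

/-- U13 -/
theorem u13 : BaseSmallStmt := ⟨Tab.pm3, Tab.pm4, Tab.pm5⟩

end Pool.Agent.H74.OneP
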